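import Mathlib

set_option autoImplicit false

open Set Filter Topology
open scoped ContDiff

namespace H96.ET

variable {E : Type*} [NormedAddCommGroup E] [NormedSpace ℝ E] [FiniteDimensional ℝ E]

/-- A `C^∞` map at bounded distance from the identity whose derivative is injective everywhere is
a diffeomorphism (Hadamard). -/
theorem hadamard (f : E → E) (hf : ContDiff ℝ ∞ f) (C : ℝ) (hC : ∀ x, ‖f x - x‖ ≤ C)
    (hinj : ∀ x v, fderiv ℝ f x v = 0 → v = 0) :
    ∃ g : E → E, ContDiff ℝ ∞ g ∧ (∀ x, g (f x) = x) ∧ (∀ y, f (g y) = y) := by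
  have hcomp : CompleteSpace E := FiniteDimensional.complete ℝ E
  have hprop : ProperSpace E := FiniteDimensional.proper ℝ E
  have hcont : Continuous f := hf.continuous
  have hdiff : Differentiable ℝ f := hf.differentiable (by simp)
  -- the derivative as an equivalence
  have hinj' : ∀ x, Function.Injective (fderiv ℝ f x : E →ₗ[ℝ] E) := by
    intro x
    rw [injective_iff_map_eq_zero]
    exact hinj x
  let f' : E → E ≃L[ℝ] E := fun x =>
    (LinearEquiv.ofInjectiveEndo (fderiv ℝ f x : E →ₗ[ℝ] E) (hinj' x)).toContinuousLinearEquiv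
  have hf' : ∀ x, ((f' x : E ≃L[ℝ] E) : E →L[ℝ] E) = fderiv ℝ f x := by
    intro x
    ext v
    rfl
  have hfd : ∀ x, HasFDerivAt f ((f' x : E ≃L[ℝ] E) : E →L[ℝ] E) x := by
    intro x
    rw [hf' x]
    exact (hdiff x).hasFDerivAt
  have hloc : ∀ x, ∃ φ : OpenPartialHomeomorph E E, x ∈ φ.source ∧ φ = f := by
    intro x
    refine ⟨(hf.contDiffAt (x := x)).toOpenPartialHomeomorph f (hfd x) (by simp), ?_, ?_⟩
    · exact ContDiffAt.mem_toOpenPartialHomeomorph_source _ _ _
    · exact ContDiffAt.toOpenPartialHomeomorph_coe _ _ _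
  have hlh : IsLocalHomeomorph f := by
    intro x
    obtain ⟨φ, h1, h2⟩ := hloc x
    exact ⟨φ, h1, h2.symm⟩
  -- properness
  have htend : Tendsto f (cocompact E) (cocompact E) := by
    have h1 : Tendsto (fun x => ‖f x‖) (cocompact E) atTop := by
      have h2 : Tendsto (fun x : E => ‖x‖ - C) (cocompact E) atTop :=
        tendsto_atTop_add_const_right _ _ (tendsto_norm_cocompact_atTop (E := E))
      refine tendsto_atTop_mono (fun x => ?_) h2
      have h3 : ‖x‖ ≤ ‖f x‖ + ‖f x - x‖ := by
        have := norm_sub_le (f x) (f x - x)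
        simpa using this
      have := hC x
      linarith
    rw [tendsto_norm_atTop_iff_cobounded, ] at h1
    rwa [Metric.cobounded_eq_cocompact] at h1
  have hproper : IsProperMap f := isProperMap_iff_tendsto_cocompact.mpr ⟨hcont, htend⟩
  have hclosed : IsClosedMap f := hproper.isClosedMap
  have hcov : IsCoveringMap f := by
    rw [isCoveringMap_iff_isCoveringMapOn_univ]
    refine hclosed.isCoveringMapOn_of_isLocalHomeomorphOn ?_ ?_
    · intro x _
      have hc : IsCompact (f ⁻¹' {x}) := hproper.isCompact_preimage isCompact_singleton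
      exact hc.finite (.of_openPartialHomeomorph f subset_rfl fun e _ => hloc e)
    · intro x _
      exact hlh x
  have hsc : SimplyConnectedSpace E := inferInstance
  obtain ⟨s, ⟨hs0, hs⟩, -⟩ := hcov.existsUnique_continuousMap_lifts (ContinuousMap.id E) (f 0) 0 rfl
  have hfs : ∀ y, f (s y) = y := fun y => congrFun hs y
  have hsf : ∀ x, s (f x) = x := by
    have : (s : E → E) ∘ f = id := by
      refine hcov.eq_of_comp_eq (s.continuous.comp hcont) continuous_id ?_ 0 ?_
      · funext x
        exact hfs (f x)
      · exact hs0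
    exact fun x => congrFun this x
  let h : E ≃ₜ E :=
    { toFun := f, invFun := s, left_inv := hsf, right_inv := hfs,
      continuous_toFun := hcont, continuous_invFun := s.continuous }
  refine ⟨s, ?_, hsf, hfs⟩
  exact Homeomorph.contDiff_symm h (f₀' := f') hfd hf

end H96.ET
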