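import Mathlib

set_option autoImplicit false

open Set Filter Topology MeasureTheory
open scoped ContDiff

namespace H96.ET

variable {E : Type*} [NormedAddCommGroup E] [NormedSpace ℝ E] [FiniteDimensional ℝ E]

/-- A linear map preserving a nondegenerate skew form has determinant `±1`. -/
theorem det_symp (om : E →L[ℝ] E →L[ℝ] ℝ) (hskew : ∀ a b, om a b = - om b a)
    (hnd : ∀ a, (∀ b, om a b = 0) → a = 0) (A : E →L[ℝ] E)
    (hA : ∀ a b, om (A a) (A b) = om a b) : |A.det| = 1 := by
  classical
  let B : LinearMap.BilinForm ℝ E :=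
    LinearMap.mk₂ ℝ (fun a b => om a b) (by intro a b c; simp) (by intro a b c; simp)
      (by intro a b c; simp) (by intro a b c; simp)
  have hB : ∀ a b, B a b = om a b := fun a b => rfl
  have hBnd : B.Nondegenerate := by
    refine ⟨fun x hx => hnd x fun b => hx b, fun y hy => hnd y fun b => ?_⟩
    rw [hskew, ← hB b y, hy b, neg_zero]
  let b := Module.finBasis ℝ E
  have hdet : (LinearMap.BilinForm.toMatrix b B).det ≠ 0 :=
    (LinearMap.BilinForm.nondegenerate_iff_det_ne_zero b).mp hBnd
  have hcomp : B.comp (A : E →ₗ[ℝ] E) (A : E →ₗ[ℝ] E) = B := by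
    ext x y
    exact hA x y
  have h1 := LinearMap.BilinForm.toMatrix_comp b b B (A : E →ₗ[ℝ] E) (A : E →ₗ[ℝ] E)
  rw [hcomp] at h1
  have h2 := congrArg Matrix.det h1
  rw [Matrix.det_mul, Matrix.det_mul, Matrix.det_transpose, LinearMap.det_toMatrix] at h2
  have h3 : A.det = LinearMap.det (A : E →ₗ[ℝ] E) := rfl
  rw [← h3] at h2
  have h4 : A.det * A.det = 1 := by
    have : (LinearMap.BilinForm.toMatrix b B).det * (A.det * A.det - 1) = 0 := by linarith
    rcases mul_eq_zero.mp this with h | h
    · exact absurd h hdet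
    · linarith
  have h5 : |A.det| * |A.det| = 1 := by rw [← abs_mul, h4, abs_one]
  nlinarith [abs_nonneg A.det]

variable [MeasurableSpace E] [BorelSpace E] (μ : Measure E) [μ.IsAddHaarMeasure]

/-- Unimodular derivative implies measure preserving. -/
theorem measurePreserving_of_det (e : E ≃ₜ E) (e' : E → E →L[ℝ] E)
    (hd : ∀ x, HasFDerivAt e (e' x) x) (hdet : ∀ x, |(e' x).det| = 1) :
    MeasurePreserving e μ μ := by
  refine ⟨e.continuous.measurable, ?_⟩
  ext s hs
  rw [Measure.map_apply e.continuous.measurable hs]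
  have ht : MeasurableSet (e ⁻¹' s) := e.continuous.measurable hs
  have h := lintegral_abs_det_fderiv_eq_addHaar_image μ ht
    (fun x _ => (hd x).hasFDerivWithinAt) e.injective.injOn
  rw [image_preimage_eq s e.surjective] at h
  rw [← h]
  simp [hdet]

variable {μ}

/-- Integrals of periodic functions over a fundamental domain are invariant under equivariant
measure-preserving homeomorphisms. -/
theorem integral_comp_equivariant {F : Type*} [NormedAddCommGroup F] [NormedSpace ℝ F]
    (L : Submodule ℤ E) [Countable L] (D : Set E)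
    (hD : IsAddFundamentalDomain L D μ) (e : E ≃ₜ E) (he : MeasurePreserving e μ μ)
    (hk : ∀ k ∈ L, ∀ x, e (k + x) = k + e x) (g : E → F) (hg : ∀ k ∈ L, ∀ x, g (k + x) = g x) :
    ∫ x in D, g (e x) ∂μ = ∫ x in D, g x ∂μ := by
  have h1 := he.setIntegral_preimage_emb e.measurableEmbedding g (e '' D)
  rw [preimage_image_eq D e.injective] at h1
  rw [h1]
  have hinv : VAddInvariantMeasure L E μ :=
    inferInstanceAs (VAddInvariantMeasure L.toAddSubgroup E μ)
  have hes : MeasurePreserving e.symm μ μ :=
    MeasurePreserving.symm e.toMeasurableEquiv he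
  have h2 : IsAddFundamentalDomain L (e '' D) μ := by
    refine hD.image_of_equiv e.toEquiv (hes.quasiMeasurePreserving) (Equiv.refl L) ?_
    intro k x
    simp only [Equiv.refl_apply]
    exact hk k k.2 x
  refine h2.setIntegral_eq hD ?_
  intro k x
  exact hg k k.2 x

end H96.ET
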