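import Mathlib
import Pool.Agent.H96.ET.Hadamard
import Pool.Agent.H96.ET.Meas

set_option autoImplicit false

open Set Filter Topology
open scoped ContDiff

namespace H96.ET

variable {E : Type*} [NormedAddCommGroup E] [NormedSpace ℝ E] [FiniteDimensional ℝ E]

/-- Simultaneous inversion of the maps `w ↦ w + a(t, w)`. -/
theorem hadamard_family (a : ℝ × E → E) (ha : ContDiff ℝ ∞ a) (C : ℝ) (hC : ∀ p, ‖a p‖ ≤ C)
    (hinj : ∀ t w b, b + fderiv ℝ a (t, w) ((0:ℝ), b) = 0 → b = 0) :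
    ∃ N : ℝ × E → E, ContDiff ℝ ∞ N ∧ (∀ t w, N (t, w + a (t, w)) = w) ∧
      (∀ t x, N (t, x) + a (t, N (t, x)) = x) := by
  have had : Differentiable ℝ a := ha.differentiable (by simp)
  set M : ℝ × E → ℝ × E := fun p => (p.1, p.2 + a p) with hM
  have hMc : ContDiff ℝ ∞ M := contDiff_fst.prodMk (contDiff_snd.add ha)
  have hC0 : ∀ p, ‖M p - p‖ ≤ C := by
    intro p
    have h1 : M p - p = (0, a p) := by
      simp only [hM]
      ext <;> simp
    rw [h1, Prod.norm_mk, norm_zero, max_eq_right (norm_nonneg _)]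
    exact hC p
  have hder : ∀ p : ℝ × E, HasFDerivAt M
      ((ContinuousLinearMap.fst ℝ ℝ E).prod (ContinuousLinearMap.snd ℝ ℝ E + fderiv ℝ a p)) p := by
    intro p
    exact HasFDerivAt.prodMk hasFDerivAt_fst (hasFDerivAt_snd.add (had p).hasFDerivAt)
  obtain ⟨G, hG, hGM, hMG⟩ := hadamard M hMc C hC0 (by
    intro p q hq
    rw [(hder p).fderiv] at hq
    obtain ⟨r, h⟩ := q
    simp only [ContinuousLinearMap.prod_apply, ContinuousLinearMap.coe_fst',
      ContinuousLinearMap.add_apply, ContinuousLinearMap.coe_snd', Prod.mk_eq_zero] at hq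
    obtain ⟨h1, h2⟩ := hq
    subst h1
    rw [hinj p.1 p.2 h h2]
    rfl)
  have hG1 : ∀ p, (G p).1 = p.1 := by
    intro p
    have := congrArg Prod.fst (hMG p)
    simpa [hM] using this
  refine ⟨fun p => (G p).2, contDiff_snd.comp hG, ?_, ?_⟩
  · intro t w
    have := congrArg Prod.snd (hGM (t, w))
    simp only [hM] at this
    exact this
  · intro t x
    have h1 := congrArg Prod.snd (hMG (t, x))
    simp only [hM] at h1
    have h2 : G (t, x) = (t, (G (t, x)).2) := Prod.ext (hG1 (t, x)) rfl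
    rw [h2] at h1
    exact h1

/-- The closed form `ω(u, ·) + ω(u, Du ·)/2` has a primitive. -/
theorem primitive (om : E →L[ℝ] E →L[ℝ] ℝ) (hskew : ∀ a b, om a b = - om b a)
    (u : E → E) (hu : ContDiff ℝ ∞ u)
    (hsy : ∀ w a b, om (fderiv ℝ u w a) b + om a (fderiv ℝ u w b)
      + om (fderiv ℝ u w a) (fderiv ℝ u w b) = 0) :
    ∃ f : E → ℝ, ContDiff ℝ ∞ f ∧
      ∀ w, HasFDerivAt f (om (u w) + (1/2 : ℝ) • (om (u w)).comp (fderiv ℝ u w)) w := by
  have hud : Differentiable ℝ u := hu.differentiable (by simp)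
  have hu' : ContDiff ℝ ∞ (fderiv ℝ u) := (contDiff_infty_iff_fderiv.mp hu).2
  have hu'd : Differentiable ℝ (fderiv ℝ u) := hu'.differentiable (by simp)
  have hou : ContDiff ℝ ∞ (fun w => om (u w)) := om.contDiff.comp hu
  have hαc : ContDiff ℝ ∞ (fun w => om (u w) + (1/2 : ℝ) • (om (u w)).comp (fderiv ℝ u w)) :=
    hou.add ((hou.clm_comp hu').const_smul (1/2 : ℝ))
  have hαd : DifferentiableOn ℝ
      (fun w => om (u w) + (1/2 : ℝ) • (om (u w)).comp (fderiv ℝ u w)) univ :=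
    (hαc.differentiable (by simp)).differentiableOn
  have hder : ∀ w a b, fderiv ℝ
      (fun w => om (u w) + (1/2 : ℝ) • (om (u w)).comp (fderiv ℝ u w)) w a b =
      om (fderiv ℝ u w a) b + (1/2) * (om (u w) (fderiv ℝ (fderiv ℝ u) w a b)
        + om (fderiv ℝ u w a) (fderiv ℝ u w b)) := by
    intro w a b
    have h1 : HasFDerivAt (fun w => om (u w)) (om.comp (fderiv ℝ u w)) w :=
      om.hasFDerivAt.comp w (hud w).hasFDerivAt
    have h2 := h1.add ((h1.clm_comp (hu'd w).hasFDerivAt).const_smul (1/2 : ℝ))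
    have h3 : fderiv ℝ
      (fun w => om (u w) + (1/2 : ℝ) • (om (u w)).comp (fderiv ℝ u w)) w = _ := h2.fderiv
    rw [h3]
    simp
    ring
  obtain ⟨f, hf⟩ := convex_univ.exists_forall_hasFDerivAt_of_fderiv_symmetric isOpen_univ hαd
    (by
      intro w _ a b
      rw [hder, hder]
      have h1 : fderiv ℝ (fderiv ℝ u) w a b = fderiv ℝ (fderiv ℝ u) w b a :=
        (hu.contDiffAt.isSymmSndFDerivAt (by
          rw [minSmoothness_of_isRCLikeNormedField]
          exact WithTop.coe_le_coe.mpr (le_top : (2 : ℕ∞) ≤ ⊤))).eq a b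
      have h2 := hsy w a b
      have h3 : om (fderiv ℝ u w b) a = - om a (fderiv ℝ u w b) := hskew _ _
      have h4 : om (fderiv ℝ u w b) (fderiv ℝ u w a) = - om (fderiv ℝ u w a) (fderiv ℝ u w b) :=
        hskew _ _
      rw [h1, h3, h4]
      linarith)
  refine ⟨f, ?_, fun w => hf w (mem_univ w)⟩
  rw [contDiff_infty_iff_fderiv]
  refine ⟨fun w => (hf w (mem_univ w)).differentiableAt, ?_⟩
  have h1 : fderiv ℝ f = fun w => om (u w) + (1/2 : ℝ) • (om (u w)).comp (fderiv ℝ u w) := by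
    funext w
    exact (hf w (mem_univ w)).fderiv
  rw [h1]
  exact hαc

/-- The isotopy attached to a family of translation-invariant generating transforms. -/
theorem core2 (om : E →L[ℝ] E →L[ℝ] ℝ) (hskew : ∀ a b, om a b = - om b a)
    (hnd : ∀ a, (∀ b, om a b = 0) → a = 0)
    (u : E → E) (hu : ContDiff ℝ ∞ u) (C : ℝ) (hC : ∀ w, ‖u w‖ ≤ C)
    (hsy : ∀ w a b, om (fderiv ℝ u w a) b + om a (fderiv ℝ u w b)
      + om (fderiv ℝ u w a) (fderiv ℝ u w b) = 0)
    (c : ℝ → ℝ) (hc : ContDiff ℝ ∞ c) (Cc : ℝ) (hCc : ∀ t, |c t| ≤ Cc) (hc0 : c 0 = 0)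
    (g : ℝ × E → ℝ) (hg : ContDiff ℝ ∞ g)
    (q : ℝ × E → E) (hqc : ContDiff ℝ ∞ q)
    (hq : ∀ t x b, om (q (t, x)) b = (1 - c t) / 2 * om x b + fderiv ℝ g (t, x) ((0:ℝ), b))
    (Cq : ℝ) (hCq : ∀ t w, ‖q (t, u w)‖ ≤ Cq)
    (hinj : ∀ t w b, b + fderiv ℝ q (t, u w) ((0:ℝ), fderiv ℝ u w b) = 0 → b = 0) :
    ∃ (f : E → ℝ) (R : ℝ × E → ℝ) (H : ℝ × E → ℝ) (Ψ Φ : ℝ × E → E) (e : ℝ → E ≃ₜ E),
      ContDiff ℝ ∞ Φ ∧ (∀ t x, Φ (t, Ψ (t, x)) = x) ∧ (∀ t x, Ψ (t, Φ (t, x)) = x) ∧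
      ContDiff ℝ ∞ f ∧
      (∀ w, HasFDerivAt f (om (u w) + (1/2 : ℝ) • (om (u w)).comp (fderiv ℝ u w)) w) ∧
      ContDiff ℝ ∞ H ∧ ContDiff ℝ ∞ Ψ ∧ (∀ w, Ψ (0, w) = w) ∧
      (∀ t w, ∃ X, HasDerivAt (fun s => Ψ (s, w)) X t ∧
        ∀ b, om X b = fderiv ℝ (fun x => H (t, x)) (Ψ (t, w)) b) ∧
      (∀ t x, e t x = Ψ (t, x)) ∧
      (∀ t x, ∃ T : E →L[ℝ] E, HasFDerivAt (fun y => Ψ (t, y)) T x ∧
        ∀ a b, om (T a) (T b) = om a b) ∧
      (∀ t w, Ψ (t, w + q (t, u w)) = w + q (t, u w) + c t • u w) ∧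
      (∀ t w, H (t, w + q (t, u w) + c t • u w) = deriv c t * f w + R (t, u w)) ∧
      (∀ t x, ∃ w, w + q (t, u w) = x) ∧
      (∀ t x, ∃ w, w + q (t, u w) + c t • u w = x) := by
  have hud : Differentiable ℝ u := hu.differentiable (by simp)
  have hcd : Differentiable ℝ c := hc.differentiable (by simp)
  have hqd : Differentiable ℝ q := hqc.differentiable (by simp)
  have hgd : Differentiable ℝ g := hg.differentiable (by simp)
  have hg' : ContDiff ℝ ∞ (fderiv ℝ g) := (contDiff_infty_iff_fderiv.mp hg).2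
  have hg'd : Differentiable ℝ (fderiv ℝ g) := hg'.differentiable (by simp)
  have hc' : ContDiff ℝ ∞ (deriv c) := (contDiff_infty_iff_deriv.mp hc).2
  have hgsym : ∀ p v w, fderiv ℝ (fderiv ℝ g) p v w = fderiv ℝ (fderiv ℝ g) p w v := by
    intro p v w
    exact (hg.contDiffAt.isSymmSndFDerivAt (by
          rw [minSmoothness_of_isRCLikeNormedField]
          exact WithTop.coe_le_coe.mpr (le_top : (2 : ℕ∞) ≤ ⊤))).eq v w
  -- derivative of the defining relation of `q`
  have hdq : ∀ t x r y b, om (fderiv ℝ q (t, x) (r, y)) b =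
      -(r * deriv c t) / 2 * om x b + (1 - c t) / 2 * om y b
        + fderiv ℝ (fderiv ℝ g) (t, x) (r, y) ((0:ℝ), b) := by
    intro t x r y b
    have h1 : HasFDerivAt (fun p => om.flip b (q p)) ((om.flip b).comp (fderiv ℝ q (t, x)))
        (t, x) := (om.flip b).hasFDerivAt.comp (t, x) (hqd (t, x)).hasFDerivAt
    have hcf : HasFDerivAt (fun p : ℝ × E => c p.1)
        ((fderiv ℝ c t).comp (ContinuousLinearMap.fst ℝ ℝ E)) (t, x) :=
      (hcd t).hasFDerivAt.comp (t, x) hasFDerivAt_fst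
    have hcf2 : HasFDerivAt (fun p : ℝ × E => (1/2 : ℝ) * (1 - c p.1))
        ((1/2 : ℝ) • -((fderiv ℝ c t).comp (ContinuousLinearMap.fst ℝ ℝ E))) (t, x) :=
      (hcf.const_sub 1).const_mul (1/2 : ℝ)
    have hx : HasFDerivAt (fun p : ℝ × E => om.flip b p.2)
        ((om.flip b).comp (ContinuousLinearMap.snd ℝ ℝ E)) (t, x) :=
      (om.flip b).hasFDerivAt.comp (t, x) hasFDerivAt_snd
    have hgv : HasFDerivAt (fun p : ℝ × E => fderiv ℝ g p ((0:ℝ), b))
        ((ContinuousLinearMap.apply ℝ ℝ ((0:ℝ), b)).comp (fderiv ℝ (fderiv ℝ g) (t, x))) (t, x) :=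
      (ContinuousLinearMap.apply ℝ ℝ ((0:ℝ), b)).hasFDerivAt.comp (t, x) (hg'd (t, x)).hasFDerivAt
    have h2 := (hcf2.mul hx).add hgv
    have h3 : (fun p => om.flip b (q p)) = fun p : ℝ × E =>
        (1/2 : ℝ) * (1 - c p.1) * om.flip b p.2 + fderiv ℝ g p ((0:ℝ), b) := by
      funext p
      obtain ⟨t', x'⟩ := p
      simp only [ContinuousLinearMap.flip_apply]
      rw [hq]
      ring
    rw [h3] at h1
    have h4 := DFunLike.congr_fun (h1.unique h2) (r, y)
    have h5 : fderiv ℝ c t r = r * deriv c t := by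
      rw [fderiv_eq_smul_deriv, smul_eq_mul]
    simp only [ContinuousLinearMap.comp_apply, ContinuousLinearMap.flip_apply,
      ContinuousLinearMap.add_apply, ContinuousLinearMap.smul_apply, ContinuousLinearMap.neg_apply,
      ContinuousLinearMap.coe_fst', ContinuousLinearMap.coe_snd', smul_eq_mul,
      ContinuousLinearMap.apply_apply, h5] at h4
    rw [h4]
    ring
  have hQ : ∀ t x a b, om (fderiv ℝ q (t, x) ((0:ℝ), a)) b
      + om a (fderiv ℝ q (t, x) ((0:ℝ), b)) = (1 - c t) * om a b := by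
    intro t x a b
    have h1 := hdq t x 0 a b
    have h2 := hdq t x 0 b a
    have h3 : om a (fderiv ℝ q (t, x) ((0:ℝ), b)) = - om (fderiv ℝ q (t, x) ((0:ℝ), b)) a :=
      hskew _ _
    have h4 := hgsym (t, x) ((0:ℝ), a) ((0:ℝ), b)
    have h5 : om b a = - om a b := hskew _ _
    rw [h3, h1, h2, h4, h5]
    ring
  -- the symplectic relation
  have hrel : ∀ t w a b,
      om (a + fderiv ℝ q (t, u w) ((0:ℝ), fderiv ℝ u w a) + c t • fderiv ℝ u w a)
        (b + fderiv ℝ q (t, u w) ((0:ℝ), fderiv ℝ u w b) + c t • fderiv ℝ u w b)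
      = om (a + fderiv ℝ q (t, u w) ((0:ℝ), fderiv ℝ u w a))
        (b + fderiv ℝ q (t, u w) ((0:ℝ), fderiv ℝ u w b)) := by
    intro t w a b
    have h1 := hQ t (u w) (fderiv ℝ u w a) (fderiv ℝ u w b)
    have h2 := hsy w a b
    set Ua := fderiv ℝ u w a
    set Ub := fderiv ℝ u w b
    set Qa := fderiv ℝ q (t, u w) ((0:ℝ), Ua)
    set Qb := fderiv ℝ q (t, u w) ((0:ℝ), Ub)
    simp only [map_add, map_smul, ContinuousLinearMap.add_apply, ContinuousLinearMap.smul_apply,
      smul_eq_mul]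
    linear_combination c t * h1 + c t * h2
  -- surjectivity
  have hsurj : ∀ t w b, ∃ a, a + fderiv ℝ q (t, u w) ((0:ℝ), fderiv ℝ u w a) = b := by
    intro t w b
    let T : E →ₗ[ℝ] E := (ContinuousLinearMap.id ℝ E + (fderiv ℝ q (t, u w)).comp
      ((ContinuousLinearMap.inr ℝ ℝ E).comp (fderiv ℝ u w)) : E →L[ℝ] E)
    have hT : ∀ a, T a = a + fderiv ℝ q (t, u w) ((0:ℝ), fderiv ℝ u w a) := fun a => rfl
    have hTi : Function.Injective T := by
      rw [injective_iff_map_eq_zero]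
      intro a ha
      rw [hT] at ha
      exact hinj t w a ha
    exact LinearMap.injective_iff_surjective.mp hTi b
  have hinj2 : ∀ t w b, b + fderiv ℝ q (t, u w) ((0:ℝ), fderiv ℝ u w b)
      + c t • fderiv ℝ u w b = 0 → b = 0 := by
    intro t w b hb
    refine hinj t w b (hnd _ fun d => ?_)
    obtain ⟨a, rfl⟩ := hsurj t w d
    rw [← hrel, hb]
    simp
  have hsurj2 : ∀ t w b, ∃ a, a + fderiv ℝ q (t, u w) ((0:ℝ), fderiv ℝ u w a)
      + c t • fderiv ℝ u w a = b := by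
    intro t w b
    let T : E →ₗ[ℝ] E := (ContinuousLinearMap.id ℝ E + (fderiv ℝ q (t, u w)).comp
      ((ContinuousLinearMap.inr ℝ ℝ E).comp (fderiv ℝ u w)) + c t • fderiv ℝ u w : E →L[ℝ] E)
    have hT : ∀ a, T a = a + fderiv ℝ q (t, u w) ((0:ℝ), fderiv ℝ u w a)
      + c t • fderiv ℝ u w a := fun a => rfl
    have hTi : Function.Injective T := by
      rw [injective_iff_map_eq_zero]
      intro a ha
      rw [hT] at ha
      exact hinj2 t w a ha
    exact LinearMap.injective_iff_surjective.mp hTi b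
  -- the two families
  have hu2 : ContDiff ℝ ∞ (fun p : ℝ × E => u p.2) := hu.comp contDiff_snd
  have ha1 : ContDiff ℝ ∞ (fun p : ℝ × E => q (p.1, u p.2)) :=
    hqc.comp (contDiff_fst.prodMk hu2)
  have hcu : ContDiff ℝ ∞ (fun p : ℝ × E => c p.1 • u p.2) := (hc.comp contDiff_fst).smul hu2
  have hd1 : ∀ t w, HasFDerivAt (fun p : ℝ × E => q (p.1, u p.2))
      ((fderiv ℝ q (t, u w)).comp ((ContinuousLinearMap.fst ℝ ℝ E).prod
        ((fderiv ℝ u w).comp (ContinuousLinearMap.snd ℝ ℝ E)))) (t, w) := by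
    intro t w
    have h1 : HasFDerivAt (fun p : ℝ × E => (p.1, u p.2))
        ((ContinuousLinearMap.fst ℝ ℝ E).prod
          ((fderiv ℝ u w).comp (ContinuousLinearMap.snd ℝ ℝ E))) (t, w) :=
      HasFDerivAt.prodMk hasFDerivAt_fst ((hud w).hasFDerivAt.comp (t, w) hasFDerivAt_snd)
    exact (hqd (t, u w)).hasFDerivAt.comp (t, w) h1
  have hd2 : ∀ t w, HasFDerivAt (fun p : ℝ × E => c p.1 • u p.2)
      (c t • ((fderiv ℝ u w).comp (ContinuousLinearMap.snd ℝ ℝ E)) +
          ((fderiv ℝ c t).comp (ContinuousLinearMap.fst ℝ ℝ E)).smulRight (u w)) (t, w) := by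
    intro t w
    have h1 : HasFDerivAt (fun p : ℝ × E => c p.1)
        ((fderiv ℝ c t).comp (ContinuousLinearMap.fst ℝ ℝ E)) (t, w) :=
      (hcd t).hasFDerivAt.comp (t, w) hasFDerivAt_fst
    have h2 : HasFDerivAt (fun p : ℝ × E => u p.2)
        ((fderiv ℝ u w).comp (ContinuousLinearMap.snd ℝ ℝ E)) (t, w) :=
      (hud w).hasFDerivAt.comp (t, w) hasFDerivAt_snd
    exact h1.smul h2
  obtain ⟨N, hNc, hN1, hN2⟩ := hadamard_family (fun p : ℝ × E => q (p.1, u p.2)) ha1 Cq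
    (fun p => hCq p.1 p.2)
    (by
      intro t w b hb
      rw [(hd1 t w).fderiv] at hb
      exact hinj t w b hb)
  obtain ⟨Y, hYc, hY1, hY2⟩ := hadamard_family
    (fun p : ℝ × E => q (p.1, u p.2) + c p.1 • u p.2) (ha1.add hcu) (Cq + Cc * C)
    (by
      intro p
      refine (norm_add_le _ _).trans (add_le_add (hCq p.1 p.2) ?_)
      rw [norm_smul]
      exact mul_le_mul (hCc p.1) (hC p.2) (norm_nonneg _) ((abs_nonneg _).trans (hCc p.1)))
    (by
      intro t w b hb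
      have h1 : fderiv ℝ (fun p : ℝ × E => q (p.1, u p.2) + c p.1 • u p.2) (t, w) = _ :=
        ((hd1 t w).add (hd2 t w)).fderiv
      rw [h1] at hb
      refine hinj2 t w b ?_
      rw [← hb]
      simp [add_assoc])
  obtain ⟨f, hfc, hf⟩ := primitive om hskew u hu hsy
  have hY1' : ∀ t w, Y (t, w + q (t, u w) + c t • u w) = w := by
    intro t w
    rw [add_assoc]
    exact hY1 t w
  have hNs : ∀ t x, ∃ w, w + q (t, u w) = x := fun t x => ⟨N (t, x), hN2 t x⟩
  have hYs : ∀ t x, ∃ w, w + q (t, u w) + c t • u w = x := fun t x =>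
    ⟨Y (t, x), by rw [add_assoc]; exact hY2 t x⟩
  set R : ℝ × E → ℝ := fun p => c p.1 * fderiv ℝ g p ((1:ℝ), (0:E))
    - deriv c p.1 * (fderiv ℝ g p ((0:ℝ), p.2) - g p) with hR
  have hRc : ContDiff ℝ ∞ R := by
    refine ((hc.comp contDiff_fst).mul (hg'.clm_apply contDiff_const)).sub
      ((hc'.comp contDiff_fst).mul ((hg'.clm_apply ?_).sub hg))
    exact contDiff_const.prodMk contDiff_snd
  set Ψ : ℝ × E → E := fun p => p.2 + c p.1 • u (N p) with hΨ
  set H : ℝ × E → ℝ := fun p => deriv c p.1 * f (Y p) + R (p.1, u (Y p)) with hH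
  have hΨc : ContDiff ℝ ∞ Ψ := contDiff_snd.add ((hc.comp contDiff_fst).smul (hu.comp hNc))
  have hHc : ContDiff ℝ ∞ H :=
    ((hc'.comp contDiff_fst).mul (hfc.comp hYc)).add
      (hRc.comp (contDiff_fst.prodMk (hu.comp hYc)))
  have hΨf : ∀ t w, Ψ (t, w + q (t, u w)) = w + q (t, u w) + c t • u w := by
    intro t w
    simp only [hΨ]
    rw [hN1 t w]
  have hHf : ∀ t w, H (t, w + q (t, u w) + c t • u w) = deriv c t * f w + R (t, u w) := by
    intro t w
    simp only [hH]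
    rw [hY1' t w]
  -- inverse of the flow
  set Φ : ℝ × E → E := fun p => Y p + q (p.1, u (Y p)) with hΦ
  have hΦc : ContDiff ℝ ∞ Φ := hYc.add (hqc.comp (contDiff_fst.prodMk (hu.comp hYc)))
  have hΦΨ : ∀ t x, Φ (t, Ψ (t, x)) = x := by
    intro t x
    obtain ⟨w, rfl⟩ := hNs t x
    rw [hΨf]
    simp only [hΦ]
    rw [hY1']
  have hΨΦ : ∀ t x, Ψ (t, Φ (t, x)) = x := by
    intro t x
    obtain ⟨w, rfl⟩ := hYs t x
    have h1 : Φ (t, w + q (t, u w) + c t • u w) = w + q (t, u w) := by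
      simp only [hΦ]
      rw [hY1']
    rw [h1, hΨf]
  let e : ℝ → E ≃ₜ E := fun t =>
    { toFun := fun x => Ψ (t, x), invFun := fun x => Φ (t, x),
      left_inv := hΦΨ t, right_inv := hΨΦ t,
      continuous_toFun := hΨc.continuous.comp (by fun_prop),
      continuous_invFun := hΦc.continuous.comp (by fun_prop) }
  refine ⟨f, R, H, Ψ, Φ, e, hΦc, hΦΨ, hΨΦ, hfc, hf, hHc, hΨc, ?_, ?_, fun t x => rfl, ?_, hΨf, hHf, hNs, hYs⟩
  · intro w
    simp only [hΨ, hc0, zero_smul, add_zero]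
  · -- Hamilton's equation
    intro t x0
    set w := N (t, x0) with hw
    set w' := fderiv ℝ N (t, x0) ((1:ℝ), (0:E)) with hw'
    have hNd : HasDerivAt (fun s => N (s, x0)) w' t := by
      have h1 : HasFDerivAt N (fderiv ℝ N (t, x0)) (t, x0) :=
        (hNc.differentiable (by simp) _).hasFDerivAt
      have h2 : HasDerivAt (fun s : ℝ => (s, x0)) ((1:ℝ), (0:E)) t :=
        (hasDerivAt_id t).prodMk (hasDerivAt_const t x0)
      exact h1.comp_hasDerivAt t h2
    have huN : HasDerivAt (fun s => u (N (s, x0))) (fderiv ℝ u w w') t :=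
      (hud w).hasFDerivAt.comp_hasDerivAt t hNd
    have hqN : HasDerivAt (fun s => q (s, u (N (s, x0))))
        (fderiv ℝ q (t, u w) ((1:ℝ), fderiv ℝ u w w')) t :=
      (hqd (t, u w)).hasFDerivAt.comp_hasDerivAt t ((hasDerivAt_id t).prodMk huN)
    have hw'rel : w' + fderiv ℝ q (t, u w) ((1:ℝ), fderiv ℝ u w w') = 0 := by
      have h1 : HasDerivAt (fun s => N (s, x0) + q (s, u (N (s, x0))))
          (w' + fderiv ℝ q (t, u w) ((1:ℝ), fderiv ℝ u w w')) t := hNd.add hqN
      have h2 : (fun s => N (s, x0) + q (s, u (N (s, x0)))) = fun _ => x0 := by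
        funext s
        exact hN2 s x0
      rw [h2] at h1
      exact h1.unique (hasDerivAt_const t x0)
    have hct : HasDerivAt c (deriv c t) t := (hcd t).hasDerivAt
    have hΨ' : HasDerivAt (fun s => Ψ (s, x0))
        (c t • fderiv ℝ u w w' + deriv c t • u w) t := by
      have h1 := (hct.smul huN).const_add x0
      exact h1
    refine ⟨_, hΨ', ?_⟩
    intro b
    obtain ⟨h, rfl⟩ := hsurj2 t w b
    have hΨt : Ψ (t, x0) = w + q (t, u w) + c t • u w := by
      have h1 : w + q (t, u w) = x0 := hN2 t x0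
      simp only [hΨ]
      rw [h1]
    have hHt : ContDiff ℝ ∞ (fun x => H (t, x)) :=
      hHc.comp (contDiff_const.prodMk contDiff_id)
    have hHd : HasFDerivAt (fun x => H (t, x)) (fderiv ℝ (fun x => H (t, x)) (Ψ (t, x0)))
        (w + q (t, u w) + c t • u w) := by
      rw [← hΨt]
      exact (hHt.differentiable (by simp) _).hasFDerivAt
    have hinr : HasFDerivAt (fun y : E => (t, y)) (ContinuousLinearMap.inr ℝ ℝ E) (u w) :=
      hasFDerivAt_prodMk_right t (u w)
    have hqx : HasFDerivAt (fun y => q (t, y))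
        ((fderiv ℝ q (t, u w)).comp (ContinuousLinearMap.inr ℝ ℝ E)) (u w) :=
      (hqd (t, u w)).hasFDerivAt.comp (u w) hinr
    have hYd : HasFDerivAt (fun w => w + q (t, u w) + c t • u w)
        (ContinuousLinearMap.id ℝ E + ((fderiv ℝ q (t, u w)).comp
          (ContinuousLinearMap.inr ℝ ℝ E)).comp (fderiv ℝ u w) + c t • fderiv ℝ u w) w :=
      ((hasFDerivAt_id w).add (hqx.comp w (hud w).hasFDerivAt)).add
        ((hud w).hasFDerivAt.const_smul (c t))
    have hcomp : HasFDerivAt (fun w => H (t, w + q (t, u w) + c t • u w))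
        ((fderiv ℝ (fun x => H (t, x)) (Ψ (t, x0))).comp
          (ContinuousLinearMap.id ℝ E + ((fderiv ℝ q (t, u w)).comp
          (ContinuousLinearMap.inr ℝ ℝ E)).comp (fderiv ℝ u w) + c t • fderiv ℝ u w)) w :=
      HasFDerivAt.comp (g := fun x => H (t, x)) w hHd hYd
    -- derivative of the right-hand side
    have hg1 : HasFDerivAt (fun y : E => fderiv ℝ g (t, y))
        ((fderiv ℝ (fderiv ℝ g) (t, u w)).comp (ContinuousLinearMap.inr ℝ ℝ E)) (u w) :=
      (hg'd (t, u w)).hasFDerivAt.comp (u w) hinr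
    have hg0 : HasFDerivAt (fun y : E => g (t, y))
        ((fderiv ℝ g (t, u w)).comp (ContinuousLinearMap.inr ℝ ℝ E)) (u w) :=
      (hgd (t, u w)).hasFDerivAt.comp (u w) hinr
    have hinr0 : HasFDerivAt (fun y : E => ((0:ℝ), y)) (ContinuousLinearMap.inr ℝ ℝ E) (u w) :=
      hasFDerivAt_prodMk_right 0 (u w)
    have hRd : HasFDerivAt (fun y => R (t, y)) _ (u w) :=
      ((hg1.clm_apply (hasFDerivAt_const ((1:ℝ), (0:E)) (u w))).const_mul (c t)).sub
        (((hg1.clm_apply hinr0).sub hg0).const_mul (deriv c t))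
    have hHff : (fun w => H (t, w + q (t, u w) + c t • u w)) =
        fun w => deriv c t * f w + R (t, u w) := by
      funext w
      exact hHf t w
    rw [hHff] at hcomp
    have hrhs := ((hf w).const_mul (deriv c t)).add (hRd.comp w (hud w).hasFDerivAt)
    have heq := DFunLike.congr_fun (hcomp.unique hrhs) h
    have hlhs : ((fderiv ℝ (fun x => H (t, x)) (Ψ (t, x0))).comp
          (ContinuousLinearMap.id ℝ E + ((fderiv ℝ q (t, u w)).comp
          (ContinuousLinearMap.inr ℝ ℝ E)).comp (fderiv ℝ u w) + c t • fderiv ℝ u w)) h =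
        fderiv ℝ (fun x => H (t, x)) (Ψ (t, x0)) (h + fderiv ℝ q (t, u w)
          ((0:ℝ), fderiv ℝ u w h) + c t • fderiv ℝ u w h) := rfl
    rw [hlhs] at heq
    rw [heq]
    simp only [ContinuousLinearMap.add_apply, ContinuousLinearMap.smul_apply,
      ContinuousLinearMap.sub_apply, ContinuousLinearMap.comp_apply, smul_eq_mul,
      ContinuousLinearMap.flip_apply, ContinuousLinearMap.zero_apply, map_zero, zero_add,
      ContinuousLinearMap.inr_apply]
    -- collect the relations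
    set Uh := fderiv ℝ u w h with hUh
    set Uw := fderiv ℝ u w w' with hUw
    set x := u w with hx
    have k1 := hsy w w' h
    have k2 := hQ t x Uw Uh
    have k3 := hdq t x 1 0 Uh
    have k4 := hdq t x 0 x Uh
    have k5 := hQ t x x Uh
    have k6 := hgsym (t, x) ((0:ℝ), Uh) ((1:ℝ), (0:E))
    have k7 := hgsym (t, x) ((0:ℝ), Uh) ((0:ℝ), x)
    have k8 : fderiv ℝ q (t, x) ((1:ℝ), Uw) =
        fderiv ℝ q (t, x) ((1:ℝ), (0:E)) + fderiv ℝ q (t, x) ((0:ℝ), Uw) := by
      rw [← map_add]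
      simp
    have k9 := congrArg (fun y => om y Uh) hw'rel
    rw [k8] at k9
    simp only [map_add, ContinuousLinearMap.add_apply, map_zero,
      ContinuousLinearMap.zero_apply] at k9
    rw [← hUh, ← hUw] at k1
    simp only [map_add, map_smul, ContinuousLinearMap.add_apply, ContinuousLinearMap.smul_apply,
      smul_eq_mul, map_zero, ContinuousLinearMap.zero_apply] at k1 k2 k3 k4 k5 k6 k7 k9 ⊢
    linear_combination c t * k1 + c t * k2 - c t * k9 + c t * k3 + deriv c t * k5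
      - deriv c t * k4 - c t * k6 + deriv c t * k7
  · -- symplecticity
    intro t x
    have hΨt : ContDiff ℝ ∞ (fun y => Ψ (t, y)) := hΨc.comp (contDiff_const.prodMk contDiff_id)
    obtain ⟨w, rfl⟩ := hNs t x
    set T := fderiv ℝ (fun y => Ψ (t, y)) (w + q (t, u w)) with hT
    have hTd : HasFDerivAt (fun y => Ψ (t, y)) T (w + q (t, u w)) :=
      (hΨt.differentiable (by simp) _).hasFDerivAt
    refine ⟨T, hTd, ?_⟩
    have hinr : HasFDerivAt (fun y : E => (t, y)) (ContinuousLinearMap.inr ℝ ℝ E) (u w) :=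
      hasFDerivAt_prodMk_right t (u w)
    have hqx : HasFDerivAt (fun y => q (t, y))
        ((fderiv ℝ q (t, u w)).comp (ContinuousLinearMap.inr ℝ ℝ E)) (u w) :=
      (hqd (t, u w)).hasFDerivAt.comp (u w) hinr
    have hXd : HasFDerivAt (fun w => w + q (t, u w))
        (ContinuousLinearMap.id ℝ E + ((fderiv ℝ q (t, u w)).comp
          (ContinuousLinearMap.inr ℝ ℝ E)).comp (fderiv ℝ u w)) w :=
      (hasFDerivAt_id w).add (hqx.comp w (hud w).hasFDerivAt)
    have hYd : HasFDerivAt (fun w => w + q (t, u w) + c t • u w)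
        (ContinuousLinearMap.id ℝ E + ((fderiv ℝ q (t, u w)).comp
          (ContinuousLinearMap.inr ℝ ℝ E)).comp (fderiv ℝ u w) + c t • fderiv ℝ u w) w :=
      hXd.add ((hud w).hasFDerivAt.const_smul (c t))
    have hcomp : HasFDerivAt (fun w => Ψ (t, w + q (t, u w)))
        (T.comp (ContinuousLinearMap.id ℝ E + ((fderiv ℝ q (t, u w)).comp
          (ContinuousLinearMap.inr ℝ ℝ E)).comp (fderiv ℝ u w))) w :=
      HasFDerivAt.comp (g := fun y => Ψ (t, y)) w hTd hXd
    have h1 : (fun w => Ψ (t, w + q (t, u w))) = fun w => w + q (t, u w) + c t • u w := by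
      funext w
      exact hΨf t w
    rw [h1] at hcomp
    have hTa : ∀ a, T (a + fderiv ℝ q (t, u w) ((0:ℝ), fderiv ℝ u w a)) =
        a + fderiv ℝ q (t, u w) ((0:ℝ), fderiv ℝ u w a) + c t • fderiv ℝ u w a := fun a =>
      DFunLike.congr_fun (hcomp.unique hYd) a
    intro a b
    obtain ⟨a', rfl⟩ := hsurj t w a
    obtain ⟨b', rfl⟩ := hsurj t w b
    rw [hTa, hTa, hrel]

end H96.ET
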