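import Mathlib
import Pool.Agent.H96.ET.Meas

set_option autoImplicit false

open Set Filter Topology MeasureTheory
open scoped ContDiff

namespace H96.ET

variable {E : Type*} [NormedAddCommGroup E] [NormedSpace ℝ E] [FiniteDimensional ℝ E]
variable [MeasurableSpace E] [BorelSpace E] {μ : Measure E} [μ.IsAddHaarMeasure]

theorem swap (D : Set E) (hDb : Bornology.IsBounded D) (G : ℝ × E → ℝ)
    (hG : Continuous G) :
    ∫ t in (0:ℝ)..1, (∫ x in D, G (t, x) ∂μ) = ∫ x in D, (∫ t in (0:ℝ)..1, G (t, x)) ∂μ := by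
  have h01 : (0:ℝ) ≤ 1 := zero_le_one
  simp only [intervalIntegral.integral_of_le h01]
  refine integral_integral_swap (f := fun t x => G (t, x)) ?_
  have h1 : Function.uncurry (fun (t : ℝ) (x : E) => G (t, x)) = G := by
    funext ⟨t, x⟩
    rfl
  rw [h1, Measure.prod_restrict]
  have hK : IsCompact (Icc (0:ℝ) 1 ×ˢ closure D) :=
    isCompact_Icc.prod hDb.isCompact_closure
  have h2 : IntegrableOn G (Icc (0:ℝ) 1 ×ˢ closure D) (volume.prod μ) :=
    hG.continuousOn.integrableOn_compact hK
  exact h2.mono_set (Set.prod_mono Ioc_subset_Icc_self subset_closure)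

theorem mean_deriv (L : Submodule ℤ E) [Countable L] (D : Set E) (hDm : MeasurableSet D)
    (hDb : Bornology.IsBounded D) (hD : IsAddFundamentalDomain L D μ)
    (g : E → ℝ) (hg : ContDiff ℝ 1 g) (k : E) (c : ℝ)
    (hc : ∀ x, g (k + x) = g x + c)
    (hper : ∀ k' ∈ L, ∀ x, fderiv ℝ g (k' + x) k = fderiv ℝ g x k) :
    ∫ x in D, fderiv ℝ g x k ∂μ = (μ D).toReal * c := by
  have hcd : Continuous (fun x => fderiv ℝ g x k) :=
    (hg.continuous_fderiv (by norm_num)).clm_apply continuous_const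
  set G : ℝ × E → ℝ := fun p => fderiv ℝ g (p.1 • k + p.2) k with hGdef
  have hG : Continuous G := by
    have : Continuous (fun p : ℝ × E => p.1 • k + p.2) := by fun_prop
    exact hcd.comp this
  have h1 := swap (μ := μ) D hDb G hG
  have h2 : ∀ t : ℝ, ∫ x in D, G (t, x) ∂μ = ∫ x in D, fderiv ℝ g x k ∂μ := by
    intro t
    exact integral_comp_equivariant L D hD (Homeomorph.addLeft (t • k))
      (measurePreserving_add_left μ (t • k))
      (by intro k' _ x; simp only [Homeomorph.coe_addLeft]; abel)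
      (fun x => fderiv ℝ g x k) hper
  have h3 : ∀ x : E, ∫ t in (0:ℝ)..1, G (t, x) = c := by
    intro x
    have hder : ∀ t ∈ uIcc (0:ℝ) 1, HasDerivAt (fun s : ℝ => g (s • k + x)) (G (t, x)) t := by
      intro t _
      have hgd : HasFDerivAt g (fderiv ℝ g (t • k + x)) (t • k + x) :=
        (hg.differentiable (by norm_num) _).hasFDerivAt
      have hl : HasDerivAt (fun s : ℝ => s • k + x) k t := by
        have := ((hasDerivAt_id t).smul_const k).add_const x
        simpa using this
      exact hgd.comp_hasDerivAt t hl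
    rw [intervalIntegral.integral_eq_sub_of_hasDerivAt hder]
    · simp only [one_smul, zero_smul, zero_add]
      rw [hc x]
      ring
    · refine Continuous.intervalIntegrable ?_ _ _
      exact hG.comp (by fun_prop)
  simp only [h2, h3] at h1
  rw [intervalIntegral.integral_const] at h1
  simp only [sub_zero, one_smul] at h1
  rw [h1, setIntegral_const]
  simp [Measure.real]

theorem flux (om : E →L[ℝ] E →L[ℝ] ℝ) (L : Submodule ℤ E) [Countable L] (D : Set E)
    (hDm : MeasurableSet D) (hDb : Bornology.IsBounded D) (hD : IsAddFundamentalDomain L D μ)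
    (H : ℝ × E → ℝ) (hH : ContDiff ℝ ∞ H) (Ψ : ℝ × E → E) (hΨ : Continuous Ψ)
    (h0 : ∀ w, Ψ (0, w) = w)
    (hd : ∀ t w, ∃ X, HasDerivAt (fun s => Ψ (s, w)) X t ∧
      ∀ v, om X v = fderiv ℝ (fun x => H (t, x)) (Ψ (t, w)) v)
    (e : ℝ → E ≃ₜ E) (he : ∀ t x, e t x = Ψ (t, x)) (hmp : ∀ t, MeasurePreserving (e t) μ μ)
    (heq : ∀ k ∈ L, ∀ t x, Ψ (t, k + x) = k + Ψ (t, x))
    (ρ : ℝ → ℝ) (hρc : Continuous ρ) (χ : E → ℝ)
    (hper : ∀ k ∈ L, ∀ t x, H (t, k + x) = H (t, x) + ρ t * χ k)
    (hρ : ∫ t in (0:ℝ)..1, ρ t = 1) (k : E) (hkL : k ∈ L) :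
    ∫ w in D, om (Ψ (1, w) - w) k ∂μ = (μ D).toReal * χ k := by
  have hHt : ∀ t : ℝ, ContDiff ℝ ∞ (fun x => H (t, x)) := fun t =>
    hH.comp (contDiff_const.prodMk contDiff_id)
  have hfd : ∀ (t : ℝ) (x v : E), fderiv ℝ (fun x => H (t, x)) x v
      = fderiv ℝ H (t, x) ((0 : ℝ), v) := by
    intro t x v
    have h1 : HasFDerivAt H (fderiv ℝ H (t, x)) (t, x) :=
      (hH.differentiable (by simp) _).hasFDerivAt
    have h2 : HasFDerivAt (fun y : E => (t, y)) (ContinuousLinearMap.inr ℝ ℝ E) x :=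
      hasFDerivAt_prodMk_right t x
    have h3 := (h1.comp x h2).fderiv
    have h4 : (H ∘ fun y : E => (t, y)) = fun x => H (t, x) := rfl
    rw [h4] at h3
    rw [h3]
    simp
  set G : ℝ × E → ℝ := fun p => fderiv ℝ H p ((0 : ℝ), k) with hGdef
  have hGc : Continuous G :=
    (hH.continuous_fderiv (by simp)).clm_apply continuous_const
  -- periodicity of the derivative
  have hGper : ∀ k' ∈ L, ∀ t x, G (t, k' + x) = G (t, x) := by
    intro k' hk' t x
    have h1 : (fun y => H (t, k' + y)) = fun y => H (t, y) + ρ t * χ k' := by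
      funext y
      exact hper k' hk' t y
    have h2 : fderiv ℝ (fun y => H (t, k' + y)) x = fderiv ℝ (fun y => H (t, y)) (k' + x) :=
      fderiv_comp_add_left (f := fun y => H (t, y)) k'
    rw [h1, fderiv_add_const] at h2
    simp only [hGdef]
    rw [← hfd, ← hfd, h2]
  have hmean : ∀ t : ℝ, ∫ x in D, G (t, x) ∂μ = (μ D).toReal * (ρ t * χ k) := by
    intro t
    have := mean_deriv L D hDm hDb hD (fun x => H (t, x)) ((hHt t).of_le (by simp)) k
      (ρ t * χ k) (fun x => hper k hkL t x)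
      (by
        intro k' hk' x
        rw [hfd, hfd]
        exact hGper k' hk' t x)
    rw [← this]
    refine integral_congr_ae (Eventually.of_forall fun x => ?_)
    simp only [hGdef]
    rw [hfd]
  have hmean2 : ∀ t : ℝ, ∫ w in D, G (t, Ψ (t, w)) ∂μ = (μ D).toReal * (ρ t * χ k) := by
    intro t
    rw [← hmean t]
    have := integral_comp_equivariant L D hD (e t) (hmp t)
      (by intro k' hk' x; rw [he, he]; exact heq k' hk' t x) (fun x => G (t, x))
      (fun k' hk' x => hGper k' hk' t x)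
    rw [← this]
    refine integral_congr_ae (Eventually.of_forall fun x => ?_)
    simp only [he]
  have hG2c : Continuous (fun p : ℝ × E => G (p.1, Ψ p)) :=
    hGc.comp (continuous_fst.prodMk hΨ)
  have hsw := swap (μ := μ) D hDb (fun p : ℝ × E => G (p.1, Ψ p)) hG2c
  simp only [hmean2] at hsw
  have hftc : ∀ w : E, ∫ t in (0:ℝ)..1, G (t, Ψ (t, w)) = om (Ψ (1, w) - w) k := by
    intro w
    have hder : ∀ t ∈ uIcc (0:ℝ) 1,
        HasDerivAt (fun s : ℝ => om (Ψ (s, w)) k) (G (t, Ψ (t, w))) t := by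
      intro t _
      obtain ⟨X, hX, hXv⟩ := hd t w
      have h1 : HasDerivAt (fun s : ℝ => om.flip k (Ψ (s, w))) (om.flip k X) t :=
        (om.flip k).hasFDerivAt.comp_hasDerivAt t hX
      have h2 : om.flip k X = G (t, Ψ (t, w)) := by
        simp only [hGdef]
        rw [← hfd, ← hXv]
        rfl
      rw [h2] at h1
      exact h1
    rw [intervalIntegral.integral_eq_sub_of_hasDerivAt hder]
    · rw [h0 w]
      simp
    · refine Continuous.intervalIntegrable ?_ _ _
      exact hG2c.comp (by fun_prop : Continuous fun t : ℝ => (t, w))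
  simp only [hftc] at hsw
  rw [← hsw, intervalIntegral.integral_const_mul, intervalIntegral.integral_mul_const, hρ, one_mul]

end H96.ET
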