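import Mathlib
import Pool.Agent.H96.ET.Core2
import Pool.Agent.H96.ET.Flux

set_option autoImplicit false

open Set Filter Topology MeasureTheory
open scoped ContDiff

namespace H96.ET

variable {E : Type*} [NormedAddCommGroup E] [NormedSpace ℝ E] [FiniteDimensional ℝ E]

theorem bounded_of_periodic {F : Type*} [NormedAddCommGroup F] (L : Submodule ℤ E) (D : Set E)
    (hDb : Bornology.IsBounded D) (hcov : ∀ x, ∃ k ∈ L, k + x ∈ D) (g : E → F) (hg : Continuous g)
    (hper : ∀ k ∈ L, ∀ x, g (k + x) = g x) : ∃ C, ∀ x, ‖g x‖ ≤ C := by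
  obtain ⟨C, hC⟩ := hDb.isCompact_closure.exists_bound_of_continuousOn hg.continuousOn
  refine ⟨C, fun x => ?_⟩
  obtain ⟨k, hk, hkx⟩ := hcov x
  rw [← hper k hk x]
  exact hC _ (subset_closure hkx)

/-- The reversed smooth time change. -/
noncomputable def theta : ℝ → ℝ := fun t => 1 - Real.smoothTransition t

theorem theta_contDiff : ContDiff ℝ ∞ theta :=
  contDiff_const.sub (Real.smoothTransition.contDiff (n := ⊤))

theorem theta_mem (t : ℝ) : theta t ∈ Icc (0:ℝ) 1 := by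
  have h1 := Real.smoothTransition.nonneg t
  have h2 := Real.smoothTransition.le_one t
  exact ⟨by simp only [theta]; linarith, by simp only [theta]; linarith⟩

theorem theta_zero : theta 0 = 1 := by simp [theta]

theorem theta_one : theta 1 = 0 := by simp [theta]

theorem fderiv_comp_theta {F : Type*} [NormedAddCommGroup F] [NormedSpace ℝ F]
    (g : ℝ × E → F) (hg : ContDiff ℝ ∞ g) (t : ℝ) (x y : E) :
    fderiv ℝ (fun p : ℝ × E => g (theta p.1, p.2)) (t, x) ((0:ℝ), y)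
      = fderiv ℝ g (theta t, x) ((0:ℝ), y) := by
  have hθd : Differentiable ℝ theta := theta_contDiff.differentiable (by simp)
  have h1 : HasFDerivAt (fun p : ℝ × E => (theta p.1, p.2))
      (((fderiv ℝ theta t).comp (ContinuousLinearMap.fst ℝ ℝ E)).prod
        (ContinuousLinearMap.snd ℝ ℝ E)) (t, x) :=
    HasFDerivAt.prodMk (HasFDerivAt.comp (g := theta) (t, x) (hθd t).hasFDerivAt
      (hasFDerivAt_fst (𝕜 := ℝ) (E := ℝ) (F := E))) hasFDerivAt_snd
  have h2 : HasFDerivAt (fun p : ℝ × E => g (theta p.1, p.2)) _ (t, x) :=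
    (hg.differentiable (by simp) (theta t, x)).hasFDerivAt.comp (t, x) h1
  rw [h2.fderiv]
  simp

variable [MeasurableSpace E] [BorelSpace E] {μ : Measure E} [μ.IsAddHaarMeasure]

theorem main2 (om : E →L[ℝ] E →L[ℝ] ℝ) (hskew : ∀ a b, om a b = - om b a)
    (hnd : ∀ a, (∀ b, om a b = 0) → a = 0)
    (L : Submodule ℤ E) [Countable L] (D : Set E) (hDm : MeasurableSet D)
    (hDb : Bornology.IsBounded D) (hD : IsAddFundamentalDomain L D μ)
    (hcov : ∀ x, ∃ k ∈ L, k + x ∈ D) (hDpos : μ D ≠ 0)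
    (ψ : E → E) (hψ : ContDiff ℝ ∞ ψ)
    (hsymp : ∀ w a b, om (fderiv ℝ ψ w a) (fderiv ℝ ψ w b) = om a b)
    (hper : ∀ k ∈ L, ∀ w, ψ (k + w) = k + ψ w)
    (hmean : ∀ k ∈ L, ∫ w in D, om (ψ w - w) k ∂μ = 0)
    (γ : ℝ → ℝ) (hγ : ContDiff ℝ ∞ γ) (hγ0 : γ 0 = 0) (hγ1 : γ 1 = 1)
    (g : ℝ × E → ℝ) (hg : ContDiff ℝ ∞ g) (hg0 : ∀ x, g (0, x) = 0)
    (q : ℝ × E → E)
    (hq : ∀ s x b, om (q (s, x)) b = γ s / 2 * om x b + fderiv ℝ g (s, x) ((0:ℝ), b))
    (hinj : ∀ s ∈ Icc (0:ℝ) 1, ∀ w b,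
      fderiv ℝ (fun w => w + q (s, ψ w - w)) w b = 0 → b = 0) :
    ∃ (H : ℝ × E → ℝ) (Ψ Φ : ℝ × E → E), ContDiff ℝ ∞ H ∧ ContDiff ℝ ∞ Ψ ∧
      ContDiff ℝ ∞ Φ ∧ (∀ t x, Φ (t, Ψ (t, x)) = x) ∧ (∀ t x, Ψ (t, Φ (t, x)) = x) ∧
      (∀ k ∈ L, ∀ t x, Φ (t, k + x) = k + Φ (t, x)) ∧
      (∀ t x, ∃ T : E →L[ℝ] E, HasFDerivAt (fun y => Ψ (t, y)) T x ∧
        ∀ a b, om (T a) (T b) = om a b) ∧
      (∀ k ∈ L, ∀ t x, H (t, k + x) = H (t, x)) ∧ (∀ w, Ψ (0, w) = w) ∧
      (∀ t w, ∃ X, HasDerivAt (fun s => Ψ (s, w)) X t ∧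
        ∀ b, om X b = fderiv ℝ (fun x => H (t, x)) (Ψ (t, w)) b) ∧
      (∀ w, Ψ (1, w) = ψ w) := by
  -- smoothness of `q`
  have hqc : ContDiff ℝ ∞ q := by
    have hinjom : Function.Injective (om : E →ₗ[ℝ] (E →L[ℝ] ℝ)) := by
      rw [injective_iff_map_eq_zero]
      intro a ha
      exact hnd a fun b => DFunLike.congr_fun ha b
    obtain ⟨J, hJ⟩ := LinearMap.exists_leftInverse_of_injective (om : E →ₗ[ℝ] (E →L[ℝ] ℝ))
      (LinearMap.ker_eq_bot.mpr hinjom)
    have hJ' : ∀ a, J (om a) = a := fun a => LinearMap.congr_fun hJ a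
    have h1 : q = fun p : ℝ × E => (LinearMap.toContinuousLinearMap J)
        ((γ p.1 / 2) • om p.2 + (fderiv ℝ g p).comp (ContinuousLinearMap.inr ℝ ℝ E)) := by
      funext p
      obtain ⟨s, x⟩ := p
      have h2 : om (q (s, x)) =
          (γ s / 2) • om x + (fderiv ℝ g (s, x)).comp (ContinuousLinearMap.inr ℝ ℝ E) := by
        ext b
        rw [hq]
        simp
      simp only [LinearMap.coe_toContinuousLinearMap']
      rw [← h2, hJ']
    rw [h1]
    have hg' : ContDiff ℝ ∞ (fderiv ℝ g) := (contDiff_infty_iff_fderiv.mp hg).2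
    refine (LinearMap.toContinuousLinearMap J).contDiff.comp (ContDiff.add ?_ ?_)
    · exact ((hγ.comp contDiff_fst).div_const 2).smul (om.contDiff.comp contDiff_snd)
    · exact hg'.clm_comp contDiff_const
  have hqd : Differentiable ℝ q := hqc.differentiable (by simp)
  -- `q` vanishes at time zero
  have hq0 : ∀ x, q (0, x) = 0 := by
    intro x
    refine hnd _ fun b => ?_
    rw [hq, hγ0]
    have h1 : HasFDerivAt (fun y : E => g (0, y))
        ((fderiv ℝ g (0, x)).comp (ContinuousLinearMap.inr ℝ ℝ E)) x :=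
      (hg.differentiable (by simp) (0, x)).hasFDerivAt.comp x (hasFDerivAt_prodMk_right 0 x)
    have h2 : (fun y : E => g (0, y)) = fun _ => 0 := by
      funext y
      exact hg0 y
    rw [h2] at h1
    have h3 := DFunLike.congr_fun (h1.unique (hasFDerivAt_const (0:ℝ) x)) b
    have h4 : fderiv ℝ g (0, x) ((0:ℝ), b) = 0 := h3
    rw [h4]
    simp
  set u : E → E := fun w => ψ w - w with hu
  have huc : ContDiff ℝ ∞ u := hψ.sub contDiff_id
  have hψd : Differentiable ℝ ψ := hψ.differentiable (by simp)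
  have hud' : Differentiable ℝ u := huc.differentiable (by simp)
  have hud : ∀ w, HasFDerivAt u (fderiv ℝ ψ w - ContinuousLinearMap.id ℝ E) w := fun w =>
    (hψd w).hasFDerivAt.sub (hasFDerivAt_id w)
  have huper : ∀ k ∈ L, ∀ w, u (k + w) = u w := by
    intro k hk w
    simp only [hu]
    rw [hper k hk w]
    abel
  obtain ⟨C, hC⟩ := bounded_of_periodic L D hDb hcov u huc.continuous huper
  have hsy : ∀ w a b, om (fderiv ℝ u w a) b + om a (fderiv ℝ u w b)
      + om (fderiv ℝ u w a) (fderiv ℝ u w b) = 0 := by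
    intro w a b
    have h1 := hsymp w a b
    have h2 : ∀ a, fderiv ℝ ψ w a = a + fderiv ℝ u w a := by
      intro a
      rw [(hud w).fderiv]
      simp
    rw [h2 a, h2 b] at h1
    simp only [map_add, ContinuousLinearMap.add_apply] at h1
    linarith
  -- time-changed data
  set c : ℝ → ℝ := fun t => 1 - γ (theta t) with hcdef
  have hcc : ContDiff ℝ ∞ c := contDiff_const.sub (hγ.comp theta_contDiff)
  obtain ⟨Cγ, hCγ⟩ := (isCompact_Icc (a := (0:ℝ)) (b := 1)).exists_bound_of_continuousOn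
    hγ.continuous.continuousOn
  have hCc : ∀ t, |c t| ≤ 1 + Cγ := by
    intro t
    have h1 := hCγ (theta t) (theta_mem t)
    rw [Real.norm_eq_abs] at h1
    have h2 : |c t| ≤ |(1:ℝ)| + |γ (theta t)| := abs_sub _ _
    rw [abs_one] at h2
    linarith
  have hc0 : c 0 = 0 := by simp [hcdef, theta_zero, hγ1]
  have hc1 : c 1 = 1 := by simp [hcdef, theta_one, hγ0]
  have hθp : ContDiff ℝ ∞ (fun p : ℝ × E => (theta p.1, p.2)) :=
    (theta_contDiff.comp contDiff_fst).prodMk contDiff_snd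
  have hgt : ContDiff ℝ ∞ (fun p : ℝ × E => g (theta p.1, p.2)) := hg.comp hθp
  have hqt : ContDiff ℝ ∞ (fun p : ℝ × E => q (theta p.1, p.2)) := hqc.comp hθp
  obtain ⟨Cq, hCq⟩ := ((isCompact_Icc (a := (0:ℝ)) (b := 1)).prod
    (isCompact_closedBall (0:E) C)).exists_bound_of_continuousOn hqc.continuous.continuousOn
  obtain ⟨f, R, H, Ψ, Φ, e, hΦc, hΦΨ, hΨΦ, hfc, hf, hHc, hΨc, hΨ0, hHam, heΨ, hTs, hΨf, hHf, hNs, hYs⟩ :=
    core2 om hskew hnd u huc C hC hsy c hcc (1 + Cγ) hCc hc0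
      (fun p => g (theta p.1, p.2)) hgt (fun p => q (theta p.1, p.2)) hqt
      (by
        intro t x b
        rw [fderiv_comp_theta g hg t x b]
        simp only [hcdef]
        rw [hq]
        ring)
      Cq
      (by
        intro t w
        exact hCq (theta t, u w) ⟨theta_mem t, by
          rw [mem_closedBall_zero_iff]; exact hC w⟩)
      (by
        intro t w b hb
        rw [fderiv_comp_theta q hqc t (u w) (fderiv ℝ u w b)] at hb
        refine hinj (theta t) (theta_mem t) w b ?_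
        have h1 : HasFDerivAt (fun y : E => q (theta t, y))
            ((fderiv ℝ q (theta t, u w)).comp (ContinuousLinearMap.inr ℝ ℝ E)) (u w) :=
          (hqd (theta t, u w)).hasFDerivAt.comp (u w) (hasFDerivAt_prodMk_right (theta t) (u w))
        have h2 : HasFDerivAt (fun w => w + q (theta t, u w)) (ContinuousLinearMap.id ℝ E +
            ((fderiv ℝ q (theta t, u w)).comp (ContinuousLinearMap.inr ℝ ℝ E)).comp
              (fderiv ℝ u w)) w :=
          (hasFDerivAt_id w).add (h1.comp w (hud' w).hasFDerivAt)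
        have h3 : fderiv ℝ (fun w => w + q (theta t, ψ w - w)) w = _ := h2.fderiv
        rw [h3]
        exact hb)
  -- quasi-periodicity of the potential
  set χ : E → ℝ := fun k => f k - f 0 with hχ
  have hfper : ∀ k ∈ L, ∀ z, f (k + z) = f z + χ k := by
    intro k hk z
    have hfdiff : Differentiable ℝ f := hfc.differentiable (by simp)
    have h1 : ∀ x y, (fun z => f (k + z) - f z) x = (fun z => f (k + z) - f z) y := by
      refine is_const_of_fderiv_eq_zero (𝕜 := ℝ) ?_ ?_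
      · intro z
        have : DifferentiableAt ℝ (fun z => f (k + z)) z :=
          (hfdiff (k + z)).comp z (by fun_prop)
        exact this.sub (hfdiff z)
      · intro z
        have h2 : DifferentiableAt ℝ (fun z => f (k + z)) z :=
          (hfdiff (k + z)).comp z (by fun_prop)
        have h3 : fderiv ℝ u (k + z) = fderiv ℝ u z := by
          have h4 : fderiv ℝ (fun y => u (k + y)) z = fderiv ℝ u (k + z) :=
            fderiv_comp_add_left k
          have h5 : (fun y => u (k + y)) = u := by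
            funext y
            exact huper k hk y
          rw [← h4, h5]
        rw [fderiv_fun_sub h2 (hfdiff z), fderiv_comp_add_left, (hf (k + z)).fderiv,
          (hf z).fderiv, huper k hk z, h3, sub_self]
    have h2 := h1 z 0
    simp only [add_zero] at h2
    simp only [hχ]
    linarith
  have hΨper : ∀ k ∈ L, ∀ t x, Ψ (t, k + x) = k + Ψ (t, x) := by
    intro k hk t x
    obtain ⟨z, rfl⟩ := hNs t x
    have h1 := hΨf t (k + z)
    rw [huper k hk z] at h1
    have h2 : k + (z + q (theta t, u z)) = k + z + q (theta t, u z) := by abel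
    have h3 := hΨf t z
    simp only at h1 h3 ⊢
    rw [h2, h1, h3]
    abel
  have hHper : ∀ k ∈ L, ∀ t x, H (t, k + x) = H (t, x) + deriv c t * χ k := by
    intro k hk t x
    obtain ⟨z, rfl⟩ := hYs t x
    have h1 := hHf t (k + z)
    rw [huper k hk z, hfper k hk z] at h1
    have h2 : k + (z + q (theta t, u z) + c t • u z) = k + z + q (theta t, u z) + c t • u z := by
      abel
    have h3 := hHf t z
    simp only at h1 h3 ⊢
    rw [h2, h1, h3]
    ring
  have hΨ1 : ∀ w, Ψ (1, w) = ψ w := by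
    intro w
    have h1 := hΨf 1 w
    simp only [theta_one, hq0, hc1, add_zero, one_smul] at h1
    rw [h1]
    simp only [hu]
    abel
  have hmp : ∀ t, MeasurePreserving (e t) μ μ := by
    intro t
    choose T hT1 hT2 using hTs t
    refine measurePreserving_of_det μ (e t) T ?_ ?_
    · intro x
      have h1 : (e t : E → E) = fun y => Ψ (t, y) := by
        funext y
        exact heΨ t y
      rw [h1]
      exact hT1 x
    · intro x
      exact det_symp om hskew hnd (T x) (hT2 x)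
  have hc'c : Continuous (deriv c) := (contDiff_infty_iff_deriv.mp hcc).2.continuous
  have hint : ∫ t in (0:ℝ)..1, deriv c t = 1 := by
    rw [intervalIntegral.integral_deriv_eq_sub]
    · rw [hc1, hc0, sub_zero]
    · intro t _
      exact hcc.differentiable (by simp) t
    · exact hc'c.intervalIntegrable _ _
  have hχ0 : ∀ k ∈ L, χ k = 0 := by
    intro k hk
    have h1 := flux (μ := μ) om L D hDm hDb hD H hHc Ψ hΨc.continuous hΨ0 hHam e heΨ hmp hΨper
      (deriv c) hc'c χ hHper hint k hk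
    simp only [hΨ1] at h1
    rw [hmean k hk] at h1
    have h2 : (μ D).toReal ≠ 0 := by
      rw [ENNReal.toReal_ne_zero]
      exact ⟨hDpos, hDb.measure_lt_top.ne⟩
    rcases mul_eq_zero.mp h1.symm with h | h
    · exact absurd h h2
    · exact h
  refine ⟨H, Ψ, Φ, hHc, hΨc, hΦc, hΦΨ, hΨΦ, ?_, hTs, ?_, hΨ0, hHam, hΨ1⟩
  · intro k hk t x
    have h1 := hΨper k hk t (Φ (t, x))
    rw [hΨΦ] at h1
    rw [← h1, hΦΨ]
  · intro k hk t x
    rw [hHper k hk t x, hχ0 k hk, mul_zero, add_zero]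

omit [FiniteDimensional ℝ E] [MeasurableSpace E] [BorelSpace E] in
/-- Composition of a smooth Hamiltonian isotopy with a Hamiltonian flow. -/
theorem compose (om : E →L[ℝ] E →L[ℝ] ℝ) (L : Submodule ℤ E)
    (H : ℝ × E → ℝ) (Ψ Φ : ℝ × E → E) (hHc : ContDiff ℝ ∞ H) (hΨc : ContDiff ℝ ∞ Ψ)
    (hΦc : ContDiff ℝ ∞ Φ) (hΦΨ : ∀ t x, Φ (t, Ψ (t, x)) = x)
    (hΨΦ : ∀ t x, Ψ (t, Φ (t, x)) = x)
    (hΦper : ∀ k ∈ L, ∀ t x, Φ (t, k + x) = k + Φ (t, x))
    (hT : ∀ t x, ∃ T : E →L[ℝ] E, HasFDerivAt (fun y => Ψ (t, y)) T x ∧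
      ∀ a b, om (T a) (T b) = om a b)
    (hHper : ∀ k ∈ L, ∀ t x, H (t, k + x) = H (t, x)) (hΨ0 : ∀ w, Ψ (0, w) = w)
    (hHam : ∀ t w, ∃ X, HasDerivAt (fun s => Ψ (s, w)) X t ∧
      ∀ b, om X b = fderiv ℝ (fun x => H (t, x)) (Ψ (t, w)) b)
    (H' : ℝ × E → ℝ) (Ψ' : ℝ × E → E) (hH'c : ContDiff ℝ ∞ H')
    (hH'per : ∀ k ∈ L, ∀ t x, H' (t, k + x) = H' (t, x)) (hΨ'0 : ∀ w, Ψ' (0, w) = w)
    (hHam' : ∀ t w, ∃ X, HasDerivAt (fun s => Ψ' (s, w)) X t ∧
      ∀ b, om X b = fderiv ℝ (fun x => H' (t, x)) (Ψ' (t, w)) b) :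
    ∃ (K : ℝ × E → ℝ) (Θ : ℝ × E → E), ContDiff ℝ ∞ K ∧
      (∀ k ∈ L, ∀ t x, K (t, k + x) = K (t, x)) ∧ (∀ w, Θ (0, w) = w) ∧
      (∀ t w, ∃ X, HasDerivAt (fun s => Θ (s, w)) X t ∧
        ∀ b, om X b = fderiv ℝ (fun x => K (t, x)) (Θ (t, w)) b) ∧
      (∀ w, Θ (1, w) = Ψ (1, Ψ' (1, w))) := by
  refine ⟨fun p => H p + H' (p.1, Φ p), fun p => Ψ (p.1, Ψ' p),
    hHc.add (hH'c.comp (contDiff_fst.prodMk hΦc)), ?_, ?_, ?_, fun w => rfl⟩
  · intro k hk t x
    simp only
    rw [hHper k hk t x, hΦper k hk t x, hH'per k hk]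
  · intro w
    simp only
    rw [hΨ'0, hΨ0]
  · intro t w
    obtain ⟨X', hX', hX'v⟩ := hHam' t w
    set y := Ψ' (t, w) with hy
    obtain ⟨X, hX, hXv⟩ := hHam t y
    obtain ⟨T, hTd, hTs⟩ := hT t y
    have hΨd : HasFDerivAt Ψ (fderiv ℝ Ψ (t, y)) (t, y) :=
      (hΨc.differentiable (by simp) (t, y)).hasFDerivAt
    -- partial derivatives of `Ψ`
    have hinr : HasFDerivAt (fun z : E => (t, z)) (ContinuousLinearMap.inr ℝ ℝ E) y :=
      hasFDerivAt_prodMk_right t y
    have hT' : ∀ a, T a = fderiv ℝ Ψ (t, y) ((0:ℝ), a) := fun a =>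
      DFunLike.congr_fun (hTd.unique (hΨd.comp y hinr)) a
    have hX1 : X = fderiv ℝ Ψ (t, y) ((1:ℝ), (0:E)) := by
      have h2 : HasDerivAt (fun s : ℝ => (s, y)) ((1:ℝ), (0:E)) t :=
        (hasDerivAt_id t).prodMk (hasDerivAt_const t y)
      exact hX.unique (hΨd.comp_hasDerivAt t h2)
    have htot : HasDerivAt (fun s => Ψ (s, Ψ' (s, w))) (fderiv ℝ Ψ (t, y) ((1:ℝ), X')) t :=
      hΨd.comp_hasDerivAt t ((hasDerivAt_id t).prodMk hX')
    refine ⟨_, htot, ?_⟩
    have hsplit : fderiv ℝ Ψ (t, y) ((1:ℝ), X') = X + T X' := by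
      rw [hX1, hT', ← map_add]
      simp
    intro b
    rw [hsplit]
    -- derivative of the second Hamiltonian
    have hHt : HasFDerivAt (fun x => H (t, x)) (fderiv ℝ (fun x => H (t, x)) (Ψ (t, y)))
        (Ψ (t, y)) := by
      have h1 : ContDiff ℝ ∞ (fun x => H (t, x)) := hHc.comp (contDiff_const.prodMk contDiff_id)
      exact (h1.differentiable (by simp) _).hasFDerivAt
    have hH't : HasFDerivAt (fun x => H' (t, x)) (fderiv ℝ (fun x => H' (t, x)) y)
        (Φ (t, Ψ (t, y))) := by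
      have h1 : ContDiff ℝ ∞ (fun x => H' (t, x)) := hH'c.comp (contDiff_const.prodMk contDiff_id)
      rw [hΦΨ]
      exact (h1.differentiable (by simp) _).hasFDerivAt
    have hΦt : HasFDerivAt (fun x => Φ (t, x)) (fderiv ℝ (fun x => Φ (t, x)) (Ψ (t, y)))
        (Ψ (t, y)) := by
      have h1 : ContDiff ℝ ∞ (fun x => Φ (t, x)) := hΦc.comp (contDiff_const.prodMk contDiff_id)
      exact (h1.differentiable (by simp) _).hasFDerivAt
    have hK : HasFDerivAt (fun x => H (t, x) + H' (t, Φ (t, x)))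
        (fderiv ℝ (fun x => H (t, x)) (Ψ (t, y)) + (fderiv ℝ (fun x => H' (t, x)) y).comp
          (fderiv ℝ (fun x => Φ (t, x)) (Ψ (t, y)))) (Ψ (t, y)) :=
      hHt.add (HasFDerivAt.comp (g := fun x => H' (t, x)) (Ψ (t, y)) hH't hΦt)
    have hK' : fderiv ℝ (fun x => H (t, x) + H' (t, Φ (t, x))) (Ψ (t, y)) = _ := hK.fderiv
    -- the inverse derivative
    have hinv1 : ∀ a, fderiv ℝ (fun x => Φ (t, x)) (Ψ (t, y)) (T a) = a := by
      have h1 : HasFDerivAt (fun z => Φ (t, Ψ (t, z)))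
          ((fderiv ℝ (fun x => Φ (t, x)) (Ψ (t, y))).comp T) y :=
        HasFDerivAt.comp (g := fun x => Φ (t, x)) y hΦt hTd
      have h2 : (fun z => Φ (t, Ψ (t, z))) = id := by
        funext z
        exact hΦΨ t z
      rw [h2] at h1
      exact fun a => DFunLike.congr_fun (h1.unique (hasFDerivAt_id y)) a
    have hinv2 : T (fderiv ℝ (fun x => Φ (t, x)) (Ψ (t, y)) b) = b := by
      have hTd' : HasFDerivAt (fun z => Ψ (t, z)) T (Φ (t, Ψ (t, y))) := by
        rw [hΦΨ]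
        exact hTd
      have h1 : HasFDerivAt (fun z => Ψ (t, Φ (t, z)))
          (T.comp (fderiv ℝ (fun x => Φ (t, x)) (Ψ (t, y)))) (Ψ (t, y)) :=
        HasFDerivAt.comp (g := fun x => Ψ (t, x)) (Ψ (t, y)) hTd' hΦt
      have h2 : (fun z => Ψ (t, Φ (t, z))) = id := by
        funext z
        exact hΨΦ t z
      rw [h2] at h1
      exact DFunLike.congr_fun (h1.unique (hasFDerivAt_id (Ψ (t, y)))) b
    have hfin : om (T X') b = fderiv ℝ (fun x => H' (t, x)) y
        (fderiv ℝ (fun x => Φ (t, x)) (Ψ (t, y)) b) := by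
      rw [← hX'v]
      conv_lhs => rw [← hinv2]
      rw [hTs]
    rw [map_add, ContinuousLinearMap.add_apply, hXv, hfin]
    show _ = fderiv ℝ (fun x => H (t, x) + H' (t, Φ (t, x))) (Ψ (t, y)) b
    rw [hK']
    rfl

end H96.ET
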